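import Pool.Agent.helper84.LQ.SpecH

/-!
# Project LQ (MP_07c750_an), row CTQ
-/

open scoped MatrixGroups ContDiff Topology UpperHalfPlane ComplexConjugate
open UpperHalfPlane MeasureTheory Filter Set

set_option autoImplicit false

namespace Pool.Agent.LP

open Pool.Agent.RS
open Pool.Agent.MS (bq BB BA SF pf)
open Pool.Agent.HV (FW)
open Pool.Agent.EN (XG MG mkX mkM fl pr)
open Pool.Agent.ER (Low LowJ)

noncomputable section

theorem CTQ_move (hGLC : GLC_stmt) (z : SL(2, ℝ)) (X X0 t u s k : ℝ) :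
    z * nM X * aM t * lM u * aM (-(s + k)) =
      1 * (z * nM X0 * aM (-s)) * nM (Real.exp s * (X - X0)) * aM t * lM (Real.exp (-s) * u) * aM (-k) := by
  obtain ⟨-, -, -, -, -, -, -, -, -, -, hA, hN, hL, -, -, -, -, hNA, hLA, -⟩ := hGLC
  have h1 : lM u * aM (-s) = aM (-s) * lM (Real.exp (-s) * u) := hLA u (-s)
  have h2 : aM t * aM (-s) = aM (-s) * aM t := by rw [← hA, ← hA, add_comm]
  have h3 : nM (X - X0) * aM (-s) = aM (-s) * nM (Real.exp s * (X - X0)) := by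
    have h := hNA (X - X0) (-s)
    rwa [neg_neg] at h
  have h4 : nM X = nM X0 * nM (X - X0) := by
    rw [← hN]; congr 1; ring
  have h5 : aM (-(s + k)) = aM (-s) * aM (-k) := by
    rw [← hA]; congr 1; ring
  rw [h4, h5, one_mul]
  calc z * (nM X0 * nM (X - X0)) * aM t * lM u * (aM (-s) * aM (-k))
      = z * nM X0 * nM (X - X0) * aM t * (lM u * aM (-s)) * aM (-k) := by simp only [mul_assoc]
    _ = z * nM X0 * nM (X - X0) * (aM t * aM (-s)) * lM (Real.exp (-s) * u) * aM (-k) := by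
        rw [h1]; simp only [mul_assoc]
    _ = z * nM X0 * (nM (X - X0) * aM (-s)) * aM t * lM (Real.exp (-s) * u) * aM (-k) := by
        rw [h2]; simp only [mul_assoc]
    _ = _ := by rw [h3]; simp only [mul_assoc]

theorem CTQ_proof (hCTB : IR.CTB_stmt) (hGLC : GLC_stmt) : CTQ_stmt := by
  intro Γ hΓ b hb hb1
  obtain ⟨CB, hCB, hCBm⟩ := hCTB Γ hΓ
  obtain ⟨N, hN⟩ := exists_nat_ge (4 / b + 1)
  refine ⟨max 1 ((2 * N + 1) * CB), le_max_left _ _, ?_⟩
  intro G m A z K hK j hj1 hjG y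
  choose! X hX using hK
  obtain ⟨s, hs⟩ : ∃ s : ℝ, s = ((G : ℝ) - j) * m := ⟨_, rfl⟩
  obtain ⟨κ, hκ⟩ : ∃ κ : ℝ, κ = (j : ℝ) * m := ⟨_, rfl⟩
  have hsk : s + κ = (G : ℝ) * m := by rw [hs, hκ]; ring
  have hs0 : 0 ≤ s := by
    rw [hs]
    have h1 : (j : ℝ) ≤ G := by exact_mod_cast hjG
    exact mul_nonneg (by linarith) (Nat.cast_nonneg _)
  have hκ0 : 0 ≤ κ := by rw [hκ]; positivity
  obtain ⟨E, hE⟩ : ∃ E : ℝ, E = Real.exp (-((G : ℝ) * m)) := ⟨_, rfl⟩
  have hE0 : 0 < E := by rw [hE]; exact Real.exp_pos _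
  have hEs : E ≤ Real.exp (-s) := by
    rw [hE, ← hsk]; exact Real.exp_le_exp.2 (by linarith)
  have hEi : E * Real.exp (s + κ) = 1 := by
    rw [hE, ← hsk, ← Real.exp_add]; simp
  obtain ⟨ξ, hξ⟩ : ∃ ξ : ℝ, ξ = b / 4 * E := ⟨_, rfl⟩
  have hξ0 : 0 < ξ := by rw [hξ]; positivity
  have hξE : 4 * ξ ≤ E := by
    rw [hξ]; nlinarith
  rw [← hE, ← hξ] at hX
  rw [← hE, ← hξ, ← hs]
  obtain ⟨K', hK'⟩ : ∃ K' : Finset ℤ, K' = K.filter fun k : ℤ => |(k : ℝ) * ξ - y| ≤ Real.exp (-s) := ⟨_, rfl⟩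
  rw [← hK']
  rcases K'.eq_empty_or_nonempty with he | ⟨k0, hk0⟩
  · rw [he, Finset.card_empty, Nat.cast_zero]
    exact mul_nonneg (zero_le_one.trans (le_max_left _ _)) (Nat.cast_nonneg _)
  have hmem : ∀ k ∈ K', k ∈ K ∧ |(k : ℝ) * ξ - y| ≤ Real.exp (-s) := by
    intro k hk
    rw [hK', Finset.mem_filter] at hk
    exact hk
  obtain ⟨f, hf⟩ : ∃ f : ℤ → ℤ, ∀ k, f k = ⌊(Real.exp s * (X k - X k0)) * Real.exp κ⌋ := ⟨_, fun _ => rfl⟩
  have hT : ((K'.image f).card : ℝ) ≤ CB * (A j).card := by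
    refine hCBm (16 * b) κ (A j) (z * nM (X k0) * aM (-s)) (K'.image f) (by linarith) (by linarith) hκ0 ?_
    intro n hn
    obtain ⟨k, hk, rfl⟩ := Finset.mem_image.1 hn
    obtain ⟨hkK, hky⟩ := hmem k hk
    obtain ⟨hk0K, hk0y⟩ := hmem k0 hk0
    obtain ⟨hx1, hx2, t, u, ht, hu, hFW⟩ := hX k hkK
    obtain ⟨hy1, hy2, -⟩ := hX k0 hk0K
    refine ⟨Real.exp s * (X k - X k0), t, Real.exp (-s) * u, 1, Or.inl rfl, ?_, ht, ?_, ?_, ?_, ?_⟩
    · have h1 := abs_le.1 hky
      have h2 := abs_le.1 hk0y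
      have h3 : |X k - X k0| ≤ 3 * Real.exp (-s) := by
        rw [abs_le]; constructor <;> nlinarith
      rw [abs_mul, abs_of_pos (Real.exp_pos s)]
      calc Real.exp s * |X k - X k0| ≤ Real.exp s * (3 * Real.exp (-s)) :=
            mul_le_mul_of_nonneg_left h3 (Real.exp_pos s).le
        _ = 3 * (Real.exp s * Real.exp (-s)) := by ring
        _ = 3 := by rw [← Real.exp_add, add_neg_cancel, Real.exp_zero, mul_one]
        _ ≤ 4 := by norm_num
    · rw [abs_mul, abs_of_pos (Real.exp_pos _)]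
      have h1 : Real.exp (-s) ≤ 1 := Real.exp_le_one_iff.2 (by linarith)
      calc Real.exp (-s) * |u| ≤ 1 * |u| := mul_le_mul_of_nonneg_right h1 (abs_nonneg _)
        _ ≤ 1 / 4 := by rw [one_mul]; exact hu
    · rw [hf]; exact Int.floor_le _
    · rw [hf]; exact Int.lt_floor_add_one _
    · rw [← CTQ_move hGLC z (X k) (X k0) t u s κ, hsk, hκ]
      exact hFW j hj1 hjG
  have hfib : ∀ n ∈ K'.image f, (K'.filter (fun k => f k = n)).card ≤ 2 * N + 1 := by
    intro n hn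
    obtain ⟨k1, hk1, rfl⟩ := Finset.mem_image.1 hn
    refine (Finset.card_le_card (t := Finset.Icc (k1 - N) (k1 + N)) ?_).trans ?_
    · intro k hk
      obtain ⟨hkK', hfk⟩ := Finset.mem_filter.1 hk
      obtain ⟨hx1, hx2, -⟩ := hX k (hmem k hkK').1
      obtain ⟨hy1, hy2, -⟩ := hX k1 (hmem k1 hk1).1
      rw [hf, hf] at hfk
      have h1 := Int.abs_sub_lt_one_of_floor_eq_floor hfk
      have h2 : Real.exp s * (X k - X k0) * Real.exp κ - Real.exp s * (X k1 - X k0) * Real.exp κ =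
          (X k - X k1) * Real.exp (s + κ) := by
        rw [Real.exp_add]; ring
      rw [h2, abs_mul, abs_of_pos (Real.exp_pos _)] at h1
      have h3 : |X k - X k1| < E := by
        have h4 : |X k - X k1| * (E * Real.exp (s + κ)) < E := by
          have h5 := mul_lt_mul_of_pos_left h1 hE0
          linarith
        rwa [hEi, mul_one] at h4
      have h6 : |((k : ℝ) - k1) * ξ| ≤ (4 / b + 1) * ξ := by
        have h7 : (4 / b + 1) * ξ = E + ξ := by
          rw [hξ]; field_simp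
        rw [h7]
        have h8 := abs_lt.1 h3
        rw [abs_le]
        constructor <;> nlinarith
      rw [abs_mul, abs_of_pos hξ0] at h6
      have h9 : |(k : ℝ) - k1| ≤ N := (le_of_mul_le_mul_right h6 hξ0).trans hN
      have h10 := abs_le.1 h9
      rw [Finset.mem_Icc]
      constructor
      · have h11 : ((k1 - N : ℤ) : ℝ) ≤ (k : ℤ) := by push_cast; linarith
        exact_mod_cast h11
      · have h11 : ((k : ℤ) : ℝ) ≤ ((k1 + N : ℤ) : ℝ) := by push_cast; linarith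
        exact_mod_cast h11
    · rw [Int.card_Icc]
      omega
  have hcard := Finset.card_le_mul_card_image K' (2 * N + 1) hfib
  have hcard' : (K'.card : ℝ) ≤ (2 * N + 1) * ((K'.image f).card : ℝ) := by exact_mod_cast hcard
  calc (K'.card : ℝ) ≤ (2 * N + 1) * ((K'.image f).card : ℝ) := hcard'
    _ ≤ (2 * N + 1) * (CB * (A j).card) := mul_le_mul_of_nonneg_left hT (by positivity)
    _ = ((2 * N + 1) * CB) * (A j).card := by ring
    _ ≤ _ := mul_le_mul_of_nonneg_right (le_max_right _ _) (Nat.cast_nonneg _)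

end

end Pool.Agent.LP
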